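import Mathlib
import Pool.Agent.H136R4.Stmts

/-!
Task ADM of project H136-GL: an injective enumeration of a dense subset of the disc.
-/

set_option autoImplicit false

namespace Pool.Agent.H574R3.GLADM

open Pool.Agent.H136R4

theorem admStmt : AdmStmt := by
  obtain ⟨D, hDc, hD⟩ := TopologicalSpace.exists_countable_dense ℂ
  let g : ℕ → ℂ := fun n => ((1 / ((n : ℝ) + 2) : ℝ) : ℂ)
  have hg : Function.Injective g := by
    intro m n h
    have h1 : (1 / ((m : ℝ) + 2) : ℝ) = 1 / ((n : ℝ) + 2) := Complex.ofReal_injective h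
    have h2 : ((m : ℝ) + 2) = (n : ℝ) + 2 := by
      have := congrArg (fun x : ℝ => x⁻¹) h1
      simpa using this
    have h3 : (m : ℝ) = n := by linarith
    exact_mod_cast h3
  have hg1 : ∀ n, ‖g n‖ < 1 := by
    intro n
    have h1 : ‖g n‖ = 1 / ((n : ℝ) + 2) := by
      show ‖((1 / ((n : ℝ) + 2) : ℝ) : ℂ)‖ = _
      rw [Complex.norm_real, Real.norm_of_nonneg (by positivity)]
    rw [h1, div_lt_one (by positivity)]
    have : (0 : ℝ) ≤ n := Nat.cast_nonneg n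
    linarith
  let S : Set ℂ := ((D ∩ {z | ‖z‖ < 1}) ∪ Set.range g) ∪ {0}
  have hSc : S.Countable :=
    ((hDc.mono Set.inter_subset_left).union (Set.countable_range g)).union (Set.countable_singleton 0)
  have hSi : S.Infinite :=
    (Set.infinite_range_of_injective hg).mono fun x hx => Or.inl (Or.inr hx)
  have hS1 : ∀ z ∈ S, ‖z‖ < 1 := by
    rintro z ((hz | ⟨n, rfl⟩) | hz)
    · exact hz.2
    · exact hg1 n
    · rw [Set.mem_singleton_iff.1 hz, norm_zero]
      exact zero_lt_one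
  have h0 : (0 : ℂ) ∈ S := Or.inr rfl
  have : Infinite S := hSi.to_subtype
  have : Countable S := hSc.to_subtype
  obtain ⟨hden⟩ := nonempty_denumerable S
  let e : S ≃ ℕ := Denumerable.eqv S
  let k0 : ℕ := e ⟨0, h0⟩
  let a : ℕ → ℂ := fun n => (e.symm (Equiv.swap 0 k0 n) : ℂ)
  refine ⟨a, ?_, ?_, ?_, ?_⟩
  · show (e.symm (Equiv.swap 0 k0 0) : ℂ) = 0
    rw [Equiv.swap_apply_left]
    show ((e.symm (e ⟨0, h0⟩) : S) : ℂ) = 0
    rw [Equiv.symm_apply_apply]
  · intro m n h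
    exact (Equiv.swap 0 k0).injective (e.symm.injective (Subtype.ext h))
  · intro k
    exact hS1 _ (e.symm (Equiv.swap 0 k0 k)).2
  · intro x hx ε hε
    -- a point of `D` in the disc
    have hy : ∃ y ∈ S, ‖x - y‖ < ε := by
      set δ : ℝ := min (ε / 2) (1 / 2) with hδ
      have hδ0 : 0 < δ := lt_min (by linarith) (by norm_num)
      have hδ1 : δ ≤ ε / 2 := min_le_left _ _
      have hδ2 : δ ≤ 1 / 2 := min_le_right _ _
      obtain ⟨y, hyD, hy⟩ := hD.exists_dist_lt (((1 - δ : ℝ) : ℂ) * x) hδ0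
      have h1 : ‖((1 - δ : ℝ) : ℂ) * x‖ ≤ 1 - δ := by
        rw [norm_mul, Complex.norm_real, Real.norm_of_nonneg (by linarith)]
        have : (1 - δ) * ‖x‖ ≤ (1 - δ) * 1 := mul_le_mul_of_nonneg_left hx (by linarith)
        linarith
      rw [dist_eq_norm] at hy
      have h2 : ‖y‖ < 1 := by
        have h3 : ‖y‖ ≤ ‖((1 - δ : ℝ) : ℂ) * x‖ + ‖((1 - δ : ℝ) : ℂ) * x - y‖ := by
          have := norm_sub_le (((1 - δ : ℝ) : ℂ) * x) (((1 - δ : ℝ) : ℂ) * x - y)
          simpa using this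
        linarith
      refine ⟨y, Or.inl (Or.inl ⟨hyD, h2⟩), ?_⟩
      have h4 : x - y = (x - ((1 - δ : ℝ) : ℂ) * x) + (((1 - δ : ℝ) : ℂ) * x - y) := by ring
      have h5 : ‖x - ((1 - δ : ℝ) : ℂ) * x‖ ≤ δ := by
        have h6 : x - ((1 - δ : ℝ) : ℂ) * x = ((δ : ℝ) : ℂ) * x := by
          push_cast
          ring
        rw [h6, norm_mul, Complex.norm_real, Real.norm_of_nonneg hδ0.le]
        have : δ * ‖x‖ ≤ δ * 1 := mul_le_mul_of_nonneg_left hx hδ0.le
        linarith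
      rw [h4]
      have := norm_add_le (x - ((1 - δ : ℝ) : ℂ) * x) (((1 - δ : ℝ) : ℂ) * x - y)
      linarith
    obtain ⟨y, hyS, hy⟩ := hy
    refine ⟨Equiv.swap 0 k0 (e ⟨y, hyS⟩), ?_⟩
    show ‖x - (e.symm (Equiv.swap 0 k0 (Equiv.swap 0 k0 (e ⟨y, hyS⟩))) : ℂ)‖ < ε
    rw [Equiv.swap_apply_self, Equiv.symm_apply_apply]
    exact hy

end Pool.Agent.H574R3.GLADM
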